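import Pool.Agent.H14R2.RC.Defs
import Pool.Agent.H14R2.RC.S.DECOMP

namespace RC14
open scoped InnerProductSpace ComplexConjugate
open Finset

namespace TYPES

section

variable {G : Type*} [Group G]
variable {V : Type*} [NormedAddCommGroup V] [InnerProductSpace ℂ V] [FiniteDimensional ℂ V]
  (ρ : G →* (V ≃ₗᵢ[ℂ] V))

/-- commuting with the representation -/
def Com (T : Module.End ℂ V) : Prop := ∀ (g : G) (v : V), T (ρ g v) = ρ g (T v)

/-- existence of a nonzero intertwiner -/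
def Iso (W U : Submodule ℂ V) : Prop :=
  ∃ T : Module.End ℂ V, Com ρ T ∧ (∀ w ∈ W, T w ∈ U) ∧ ∃ w ∈ W, T w ≠ 0

/-- orthogonal projection as an endomorphism -/
noncomputable def Pr (W : Submodule ℂ V) : Module.End ℂ V := (W.starProjection : V →ₗ[ℂ] V)

theorem Pr_apply (W : Submodule ℂ V) (v : V) : Pr W v = W.starProjection v := rfl

theorem Pr_mem (W : Submodule ℂ V) (v : V) : Pr W v ∈ W := W.starProjection_apply_mem v

theorem Pr_self {W : Submodule ℂ V} {v : V} (hv : v ∈ W) : Pr W v = v :=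
  Submodule.starProjection_eq_self_iff.mpr hv

theorem Pr_symm (W : Submodule ℂ V) (u v : V) : ⟪Pr W u, v⟫_ℂ = ⟪u, Pr W v⟫_ℂ :=
  Submodule.inner_starProjection_left_eq_right W u v

variable {ρ}

theorem inner_rho_left (g : G) (u v : V) : ⟪ρ g u, v⟫_ℂ = ⟪u, ρ g⁻¹ v⟫_ℂ := by
  have h : v = ρ g (ρ g⁻¹ v) := by
    rw [map_inv]
    exact ((ρ g).apply_symm_apply v).symm
  conv_lhs => rw [h]
  exact (ρ g).inner_map_map u _

theorem Pr_com {W : Submodule ℂ V} (hW : Inv ρ W) : Com ρ (Pr W) := by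
  intro g v
  rw [Pr_apply, Pr_apply]
  refine Submodule.eq_starProjection_of_mem_of_inner_eq_zero (hW g _ (Pr_mem W v)) ?_
  intro w hw
  rw [← map_sub, inner_rho_left]
  exact Submodule.starProjection_inner_eq_zero v _ (hW g⁻¹ w hw)

theorem Com.comp {S T : Module.End ℂ V} (hS : Com ρ S) (hT : Com ρ T) : Com ρ (S * T) := by
  intro g v
  rw [Module.End.mul_apply, Module.End.mul_apply, hT, hS]

theorem Com.adj {T : Module.End ℂ V} (hT : Com ρ T) : Com ρ (LinearMap.adjoint T) := by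
  intro g v
  refine ext_inner_right ℂ fun w => ?_
  rw [LinearMap.adjoint_inner_left, inner_rho_left, inner_rho_left, LinearMap.adjoint_inner_left,
    hT]

theorem schur {W : Submodule ℂ V} (hW : Irr ρ W) {B : Module.End ℂ V} (hB : Com ρ B)
    (hBW : ∀ w ∈ W, B w ∈ W) : ∃ μ : ℂ, ∀ w ∈ W, B w = μ • w := by
  obtain ⟨h0, hI, hmin⟩ := hW
  have hnt : Nontrivial W := Submodule.nontrivial_iff_ne_bot.mpr h0
  obtain ⟨μ, hμ⟩ := Module.End.exists_eigenvalue (B.restrict hBW)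
  obtain ⟨v, hv⟩ := hμ.exists_hasEigenvector
  have hv1 : B v = μ • (v : V) := by
    have := congrArg (Subtype.val) hv.apply_eq_smul
    simpa using this
  have hv0 : (v : V) ≠ 0 := fun h => hv.2 (Subtype.ext h)
  refine ⟨μ, ?_⟩
  let U : Submodule ℂ V := W ⊓ LinearMap.ker (B - μ • 1)
  have hU : Inv ρ U := by
    rintro g u ⟨hu, hu'⟩
    refine ⟨hI g u hu, ?_⟩
    have h1 : B u = μ • u := by
      have := LinearMap.mem_ker.mp hu'
      rw [LinearMap.sub_apply, sub_eq_zero] at this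
      simpa using this
    show (B - μ • (1 : Module.End ℂ V)) (ρ g u) = 0
    rw [LinearMap.sub_apply, hB, h1]
    simp
  rcases hmin U inf_le_left hU with h | h
  · exfalso
    have : (v : V) ∈ U := by
      refine ⟨v.2, ?_⟩
      show (B - μ • (1 : Module.End ℂ V)) (v : V) = 0
      rw [LinearMap.sub_apply, hv1]
      simp
    rw [h] at this
    exact hv0 ((Submodule.mem_bot ℂ).mp this)
  · intro w hw
    rw [← h] at hw
    have := LinearMap.mem_ker.mp hw.2
    rw [LinearMap.sub_apply, sub_eq_zero] at this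
    simpa using this

theorem norm_T {W : Submodule ℂ V} (hW : Irr ρ W) {T : Module.End ℂ V} (hT : Com ρ T) :
    ∃ s : ℝ, ∀ w ∈ W, ‖T w‖ ^ 2 = s * ‖w‖ ^ 2 := by
  obtain ⟨μ, hμ⟩ := schur hW (B := Pr W * (LinearMap.adjoint T * T))
    ((Pr_com hW.2.1).comp (hT.adj.comp hT)) (fun w _ => Pr_mem W _)
  refine ⟨μ.re, fun w hw => ?_⟩
  have h1 : (⟪w, (Pr W * (LinearMap.adjoint T * T)) w⟫_ℂ) = ⟪T w, T w⟫_ℂ := by
    rw [Module.End.mul_apply, Module.End.mul_apply, ← Pr_symm, Pr_self hw,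
      LinearMap.adjoint_inner_right]
  rw [hμ w hw, inner_smul_right, inner_self_eq_norm_sq_to_K, inner_self_eq_norm_sq_to_K] at h1
  have h2 := congrArg Complex.re h1
  have e1 : ((‖w‖ : ℂ) ^ 2) = ((‖w‖ ^ 2 : ℝ) : ℂ) := by push_cast; rfl
  have e2 : ((‖T w‖ : ℂ) ^ 2) = ((‖T w‖ ^ 2 : ℝ) : ℂ) := by push_cast; rfl
  have h3 : (μ * ((‖w‖ : ℂ) ^ 2)).re = ((‖T w‖ : ℂ) ^ 2).re := h2
  rw [e1, e2, Complex.ofReal_re, Complex.re_mul_ofReal] at h3
  exact h3.symm

theorem Iso.symm {W U : Submodule ℂ V} (hW : Irr ρ W) (h : Iso ρ W U) : Iso ρ U W := by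
  obtain ⟨T, hT, hTU, w, hw, hw0⟩ := h
  refine ⟨Pr W * LinearMap.adjoint T, (Pr_com hW.2.1).comp hT.adj, fun u _ => Pr_mem W _,
    T w, hTU w hw, fun h0 => ?_⟩
  apply hw0
  rw [Module.End.mul_apply] at h0
  have h1 : ⟪T w, T w⟫_ℂ = 0 := by
    rw [← LinearMap.adjoint_inner_left]
    have : ⟪LinearMap.adjoint T (T w), w⟫_ℂ = ⟪Pr W (LinearMap.adjoint T (T w)), w⟫_ℂ := by
      rw [Pr_symm, Pr_self hw]
    rw [this, h0, inner_zero_left]
  exact inner_self_eq_zero.mp h1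

theorem Iso.refl {W : Submodule ℂ V} (hW : Irr ρ W) : Iso ρ W W := by
  obtain ⟨w, hw, hw0⟩ := Submodule.exists_mem_ne_zero_of_ne_bot hW.1
  exact ⟨1, fun g v => rfl, fun w hw => hw, w, hw, hw0⟩

theorem transfer {W U : Submodule ℂ V} (hW : Irr ρ W) (hU : Irr ρ U) (h : Iso ρ W U) (r : ℕ)
    (x : Fin r → G) (a : Fin r → ℝ) (c : ℝ)
    (hc : ∀ v ∈ W, c * ‖v‖ ^ 2 ≤ ∑ t, a t * ‖ρ (x t) v - v‖ ^ 2) :
    ∀ v ∈ U, c * ‖v‖ ^ 2 ≤ ∑ t, a t * ‖ρ (x t) v - v‖ ^ 2 := by
  obtain ⟨T, hT, hTU, w0, hw0, hw0'⟩ := h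
  obtain ⟨s, hs⟩ := norm_T hW hT
  have hs0 : 0 ≤ s := by
    have h1 := hs w0 hw0
    have h2 : 0 < ‖T w0‖ ^ 2 := by positivity
    have h3 : 0 ≤ ‖w0‖ ^ 2 := by positivity
    by_contra hneg
    push Not at hneg
    nlinarith
  have hmap : W.map T = U := by
    rcases hU.2.2 (W.map T) (by rintro _ ⟨w, hw, rfl⟩; exact hTU w hw) (by
      rintro g _ ⟨w, hw, rfl⟩
      exact ⟨ρ g w, hW.2.1 g w hw, hT g w⟩) with h | h
    · exfalso
      have : T w0 ∈ W.map T := ⟨w0, hw0, rfl⟩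
      rw [h] at this
      exact hw0' ((Submodule.mem_bot ℂ).mp this)
    · exact h
  intro v hv
  rw [← hmap] at hv
  obtain ⟨w, hw, rfl⟩ := hv
  have h1 : ∀ t, ‖ρ (x t) (T w) - T w‖ ^ 2 = s * ‖ρ (x t) w - w‖ ^ 2 := by
    intro t
    rw [← hT, ← map_sub]
    exact hs _ (Submodule.sub_mem _ (hW.2.1 _ _ hw) hw)
  simp only [h1, hs w hw]
  have h2 := mul_le_mul_of_nonneg_left (hc w hw) hs0
  calc c * (s * ‖w‖ ^ 2) = s * (c * ‖w‖ ^ 2) := by ring
    _ ≤ s * ∑ t, a t * ‖ρ (x t) w - w‖ ^ 2 := h2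
    _ = ∑ t, a t * (s * ‖ρ (x t) w - w‖ ^ 2) := by
      rw [Finset.mul_sum]
      exact Finset.sum_congr rfl fun t _ => by ring

/-! ### characters -/

variable (ρ) in
/-- character of the subspace `W` -/
noncomputable def chi (W : Submodule ℂ V) (g : G) : ℂ := LinearMap.trace ℂ V (Pr W * op ρ g)

theorem chi_conj {W : Submodule ℂ V} (hW : Inv ρ W) (h g : G) :
    chi ρ W (h * g * h⁻¹) = chi ρ W g := by
  unfold chi
  have h1 : op ρ h * op ρ h⁻¹ = 1 := by rw [← op_mul, mul_inv_cancel, op_one]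
  have h2 : op ρ h⁻¹ * op ρ h = 1 := by rw [← op_mul, inv_mul_cancel, op_one]
  have hc : Pr W * op ρ h = op ρ h * Pr W := by
    ext v
    exact Pr_com hW h v
  rw [op_mul, op_mul, ← mul_assoc, LinearMap.trace_mul_comm, ← mul_assoc, ← mul_assoc, mul_assoc _ (Pr W) (op ρ h),
    hc, ← mul_assoc, h2, one_mul]

theorem chi_one_ne {W : Submodule ℂ V} (hW : W ≠ ⊥) : chi ρ W 1 ≠ 0 := by
  unfold chi
  rw [op_one, mul_one]
  have hproj : LinearMap.IsProj W (Pr W) := ⟨fun v => Pr_mem W v, fun v hv => Pr_self hv⟩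
  rw [hproj.trace]
  have : 0 < Module.finrank ℂ W := by
    rw [Module.finrank_pos_iff]
    exact Submodule.nontrivial_iff_ne_bot.mpr hW
  exact_mod_cast this.ne'

variable [Fintype G]

variable (ρ) in
/-- averaged rank one operator -/
noncomputable def Tm (W U : Submodule ℂ V) (x y : V) : Module.End ℂ V :=
  ∑ g : G, ((innerₛₗ ℂ (ρ g y)).comp (Pr W)).smulRight (Pr U (ρ g x))

theorem Tm_apply (W U : Submodule ℂ V) (x y v : V) :
    Tm ρ W U x y v = ∑ g : G, ⟪ρ g y, Pr W v⟫_ℂ • Pr U (ρ g x) := by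
  simp [Tm, LinearMap.sum_apply]

theorem Tm_com {W U : Submodule ℂ V} (hW : Inv ρ W) (hU : Inv ρ U) (x y : V) :
    Com ρ (Tm ρ W U x y) := by
  intro h v
  rw [Tm_apply, Tm_apply, map_sum]
  rw [← Equiv.sum_comp (Equiv.mulLeft h)]
  refine Finset.sum_congr rfl fun g _ => ?_
  rw [Equiv.coe_mulLeft, map_smul, Pr_com hW h v, map_mul]
  have h1 : ∀ z : V, (ρ h * ρ g) z = ρ h (ρ g z) := fun z => rfl
  rw [h1, h1, (ρ h).inner_map_map, Pr_com hU h]

theorem Tm_zero {W U : Submodule ℂ V} (hW : Inv ρ W) (hU : Inv ρ U) (h : ¬ Iso ρ W U) (x y v : V) :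
    Tm ρ W U x y v = 0 := by
  by_contra hne
  apply h
  refine ⟨Tm ρ W U x y, Tm_com hW hU x y, fun w _ => ?_, Pr W v, Pr_mem W v, ?_⟩
  · rw [Tm_apply]
    exact Submodule.sum_mem _ fun g _ => Submodule.smul_mem _ _ (Pr_mem U _)
  · rw [Tm_apply, Pr_self (Pr_mem W v), ← Tm_apply]
    exact hne

theorem chi_orth {W U : Submodule ℂ V} (hW : Inv ρ W) (hU : Inv ρ U) (h : ¬ Iso ρ W U) :
    ∑ g : G, chi ρ U g * conj (chi ρ W g) = 0 := by
  let e := stdOrthonormalBasis ℂ V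
  have h1 : ∀ g, chi ρ U g * conj (chi ρ W g) =
      ∑ a, ∑ b, ⟪e a, ⟪ρ g (e b), Pr W (e b)⟫_ℂ • Pr U (ρ g (e a))⟫_ℂ := by
    intro g
    unfold chi
    rw [LinearMap.trace_eq_sum_inner _ e, LinearMap.trace_eq_sum_inner _ e, map_sum,
      Finset.sum_mul_sum]
    refine Finset.sum_congr rfl fun a _ => Finset.sum_congr rfl fun b _ => ?_
    rw [inner_conj_symm, Module.End.mul_apply, Module.End.mul_apply, Pr_symm, inner_smul_right]
    simp only [op_apply]
    ring
  simp only [h1]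
  rw [Finset.sum_comm]
  refine Finset.sum_eq_zero fun a _ => ?_
  rw [Finset.sum_comm]
  refine Finset.sum_eq_zero fun b _ => ?_
  rw [← inner_sum, ← Tm_apply, Tm_zero hW hU h, inner_zero_right]

theorem card_le {N : ℕ} (W : Fin N → Submodule ℂ V) (hirr : ∀ i, Irr ρ (W i))
    (hne : ∀ i j, i ≠ j → ¬ Iso ρ (W i) (W j)) : N ≤ Nat.card (ConjClasses G) := by
  classical
  have hfin : Finite (ConjClasses G) := inferInstance
  have : Fintype (ConjClasses G) := Fintype.ofFinite _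
  let c : Fin N → (ConjClasses G → ℂ) := fun i =>
    Quotient.lift (chi ρ (W i)) (by
      intro a b hab
      obtain ⟨h, rfl⟩ := isConj_iff.mp hab
      exact (chi_conj (hirr i).2.1 h a).symm)
  have hc : ∀ i g, c i (ConjClasses.mk g) = chi ρ (W i) g := fun i g => rfl
  have hli : LinearIndependent ℂ c := by
    rw [Fintype.linearIndependent_iff]
    intro a ha j
    have h1 : ∀ g : G, ∑ i, a i * chi ρ (W i) g = 0 := by
      intro g
      have := congrFun ha (ConjClasses.mk g)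
      simpa [Finset.sum_apply, hc] using this
    have h2 : ∑ g : G, (∑ i, a i * chi ρ (W i) g) * conj (chi ρ (W j) g) = 0 := by
      simp [h1]
    have h3 : ∑ g : G, (∑ i, a i * chi ρ (W i) g) * conj (chi ρ (W j) g) =
        a j * ∑ g : G, chi ρ (W j) g * conj (chi ρ (W j) g) := by
      calc ∑ g : G, (∑ i, a i * chi ρ (W i) g) * conj (chi ρ (W j) g)
          = ∑ i, a i * ∑ g : G, chi ρ (W i) g * conj (chi ρ (W j) g) := by
            simp only [Finset.sum_mul, Finset.mul_sum]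
            rw [Finset.sum_comm]
            exact Finset.sum_congr rfl fun i _ => Finset.sum_congr rfl fun g _ => by ring
        _ = a j * ∑ g : G, chi ρ (W j) g * conj (chi ρ (W j) g) := by
            refine Finset.sum_eq_single j (fun i _ hij => ?_) (fun h => absurd (Finset.mem_univ j) h)
            rw [chi_orth (hirr j).2.1 (hirr i).2.1 (hne j i hij.symm), mul_zero]
    rw [h3] at h2
    rcases mul_eq_zero.mp h2 with h | h
    · exact h
    · exfalso
      have h4 : ∑ g : G, Complex.normSq (chi ρ (W j) g) = 0 := by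
        have h5 : ∀ g : G, chi ρ (W j) g * conj (chi ρ (W j) g) =
            ((Complex.normSq (chi ρ (W j) g) : ℝ) : ℂ) := fun g => Complex.mul_conj _
        simp only [h5] at h
        exact_mod_cast h
      have h6 := (Finset.sum_eq_zero_iff_of_nonneg (fun g _ => Complex.normSq_nonneg _)).mp h4 1
        (Finset.mem_univ _)
      exact chi_one_ne (hirr j).1 (Complex.normSq_eq_zero.mp h6)
  have h := hli.fintype_card_le_finrank
  rw [Fintype.card_fin, Module.finrank_fintype_fun_eq_card] at h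
  rw [Nat.card_eq_fintype_card]
  exact h

end

end TYPES

variable {G : Type*} [Group G] [Fintype G]
variable {V : Type*} [NormedAddCommGroup V] [InnerProductSpace ℂ V] [FiniteDimensional ℂ V]

open TYPES in
/-- the same with at most `#ConjClasses G` irreducible subspaces -/
theorem TYPES (ρ : G →* (V ≃ₗᵢ[ℂ] V)) (M : Submodule ℂ V) (hM : Inv ρ M) :
    ∃ (N : ℕ) (W : Fin N → Submodule ℂ V), N ≤ Nat.card (ConjClasses G) ∧
      (∀ i, Irr ρ (W i) ∧ W i ≤ M) ∧
      ∀ (r : ℕ) (x : Fin r → G) (w : Fin r → ℝ) (c : ℝ), (∀ i, 0 ≤ w i) →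
        (∀ i, ∀ v ∈ W i, c * ‖v‖ ^ 2 ≤ ∑ t, w t * ‖ρ (x t) v - v‖ ^ 2) →
        ∀ v ∈ M, c * ‖v‖ ^ 2 ≤ ∑ t, w t * ‖ρ (x t) v - v‖ ^ 2 := by
  classical
  obtain ⟨K, U, -, hU, hUM⟩ := DECOMP ρ M hM
  let fam : Finset (Finset (Fin K)) := (Finset.univ : Finset (Finset (Fin K))).filter fun S =>
    ∀ i ∈ S, ∀ j ∈ S, i ≠ j → ¬ Iso ρ (U i) (U j)
  have hfam : fam.Nonempty := ⟨∅, by simp [fam]⟩
  obtain ⟨S, hS, hmax⟩ := Finset.exists_max_image fam Finset.card hfam
  have hS' : ∀ i ∈ S, ∀ j ∈ S, i ≠ j → ¬ Iso ρ (U i) (U j) := (Finset.mem_filter.mp hS).2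
  have hrep : ∀ i, ∃ j ∈ S, Iso ρ (U j) (U i) := by
    intro i
    by_cases hi : i ∈ S
    · exact ⟨i, hi, Iso.refl (hU i).1⟩
    · by_contra hcon
      push Not at hcon
      have h1 : insert i S ∈ fam := by
        refine Finset.mem_filter.mpr ⟨Finset.mem_univ _, ?_⟩
        intro a ha b hb hab hiso
        rcases Finset.mem_insert.mp ha with ha | ha
        · rcases Finset.mem_insert.mp hb with hb | hb
          · exact hab (ha.trans hb.symm)
          · rw [ha] at hiso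
            exact hcon b hb (hiso.symm (hU _).1)
        · rcases Finset.mem_insert.mp hb with hb | hb
          · rw [hb] at hiso
            exact hcon a ha hiso
          · exact hS' a ha b hb hab hiso
      have h2 := hmax _ h1
      rw [Finset.card_insert_of_notMem hi] at h2
      omega
  let f : Fin S.card → Fin K := fun l => (S.equivFin.symm l : Fin K)
  have hf : Function.Injective f := fun a b hab => S.equivFin.symm.injective (Subtype.ext hab)
  refine ⟨S.card, fun l => U (f l), ?_, fun l => hU (f l), ?_⟩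
  · refine card_le (fun l => U (f l)) (fun l => (hU _).1) ?_
    intro i j hij
    exact hS' _ (S.equivFin.symm i).2 _ (S.equivFin.symm j).2 (fun h => hij (hf h))
  · intro r x w c hw hc
    refine hUM r x w c hw ?_
    intro i
    obtain ⟨j, hj, hiso⟩ := hrep i
    have hj' : f (S.equivFin ⟨j, hj⟩) = j := by
      show ((S.equivFin.symm (S.equivFin ⟨j, hj⟩) : S) : Fin K) = j
      rw [Equiv.symm_apply_apply]
    refine transfer (hU j).1 (hU i).1 hiso r x w c ?_
    have := hc (S.equivFin ⟨j, hj⟩)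
    simp only [hj'] at this
    exact this

end RC14
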